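import Mathlib

/-!
# Cantor-Bendixson height of a topological space
-/

set_option autoImplicit false

namespace Pool.Agent.CKHeight

/-- The Cantor-Bendixson derivatives of a topological space `X`: `X^(0) = X`,
`X^(a+1)` is the set of accumulation points of `X^(a)`, and at limit ordinals one takes
intersections. -/
noncomputable def cbDeriv (X : Type) [TopologicalSpace X] (a : Ordinal.{0}) : Set X :=
  Ordinal.limitRecOn a Set.univ (fun _ A => derivedSet A) (fun b _ ih => ⋂ (c) (h : c < b), ih c h)

/-- The height of `X`: the least ordinal `a` with `X^(a) = ∅`. -/
noncomputable def height (X : Type) [TopologicalSpace X] : Ordinal.{0} :=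
  sInf {a | cbDeriv X a = ∅}

end Pool.Agent.CKHeight
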