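import Mathlib
import Pool.Agent.CKHeight.Defs

set_option autoImplicit false

open OnePoint Filter Topology Set

namespace Pool.Agent.CKHeight

lemma cbDeriv_zero (X : Type) [TopologicalSpace X] : cbDeriv X 0 = Set.univ := by
  simp [cbDeriv]

lemma cbDeriv_add_one (X : Type) [TopologicalSpace X] (a : Ordinal.{0}) :
    cbDeriv X (a + 1) = derivedSet (cbDeriv X a) := by
  simp [cbDeriv]

lemma height_eq_of (X : Type) [TopologicalSpace X] (n : ℕ) (h : cbDeriv X n = ∅)
    (h' : ∀ m < n, cbDeriv X m ≠ ∅) : height X = n := by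
  apply le_antisymm
  · exact csInf_le' h
  · refine le_csInf ⟨(n : Ordinal), h⟩ fun b hb => ?_
    by_contra hlt
    rw [not_le] at hlt
    obtain ⟨m, rfl⟩ := Ordinal.lt_omega0.1 (hlt.trans (Ordinal.natCast_lt_omega0 n))
    exact h' m (by exact_mod_cast hlt) hb

/-- The space `[0, ω]`, i.e. the one-point compactification of `ℕ`. -/
abbrev Om : Type := OnePoint ℕ

lemma isOpen_singleton_coe (n : ℕ) : IsOpen ({(n : Om)} : Set Om) := by
  have := (OnePoint.isOpen_image_coe (X := ℕ) (s := {n})).2 (isOpen_discrete _)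
  simpa using this

lemma tendsto_coe : Tendsto (fun n : ℕ => (n : Om)) atTop (𝓝 (∞ : Om)) := by
  have := OnePoint.tendsto_coe_infty (X := ℕ)
  rwa [coclosedCompact_eq_cocompact, cocompact_eq_atTop] at this

lemma derived_om : derivedSet (Set.univ : Set Om) = {∞} := by
  ext x
  rw [mem_derivedSet, Set.mem_singleton_iff]
  constructor
  · intro h
    by_contra hx
    obtain ⟨n, rfl⟩ := OnePoint.ne_infty_iff_exists.1 hx
    rw [accPt_iff_nhds] at h
    obtain ⟨y, hy, hne⟩ := h {(n : Om)} ((isOpen_singleton_coe n).mem_nhds rfl)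
    exact hne hy.1
  · rintro rfl
    rw [accPt_iff_nhds]
    intro U hU
    obtain ⟨n, hn⟩ := (tendsto_coe.eventually hU).exists
    exact ⟨n, ⟨hn, trivial⟩, OnePoint.coe_ne_infty n⟩

lemma derived_singleton' (X : Type) [TopologicalSpace X] [T1Space X] (x : X) :
    derivedSet ({x} : Set X) = ∅ := by
  rw [Set.eq_empty_iff_forall_notMem]
  intro y hy
  rw [mem_derivedSet, accPt_iff_nhds] at hy
  by_cases hyx : y = x
  · obtain ⟨z, hz, hne⟩ := hy Set.univ univ_mem
    exact hne (hz.2.trans hyx.symm)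
  · obtain ⟨z, hz, -⟩ := hy {x}ᶜ (isOpen_compl_singleton.mem_nhds hyx)
    exact hz.1 hz.2

theorem height_om : height Om = 2 := by
  have h1 : cbDeriv Om ((1 : ℕ) : Ordinal) = {∞} := by
    have := cbDeriv_add_one Om 0
    rw [zero_add, cbDeriv_zero, derived_om] at this
    simpa using this
  have h2 : cbDeriv Om ((2 : ℕ) : Ordinal) = ∅ := by
    have := cbDeriv_add_one Om ((1 : ℕ) : Ordinal)
    rw [h1, derived_singleton'] at this
    rw [← this]
    norm_num
  refine height_eq_of Om 2 h2 fun m hm => ?_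
  interval_cases m
  · rw [Nat.cast_zero, cbDeriv_zero]; exact Set.univ_nonempty.ne_empty
  · rw [h1]; exact (Set.singleton_nonempty _).ne_empty

/-- The boundary of `Om × Om`. -/
def bdry : Set (Om × Om) := {p | p.1 = ∞ ∨ p.2 = ∞}

lemma isOpen_point (n m : ℕ) : IsOpen ({((n : Om), (m : Om))} : Set (Om × Om)) := by
  rw [← Set.singleton_prod_singleton]
  exact (isOpen_singleton_coe n).prod (isOpen_singleton_coe m)

lemma acc_fst (A : Set (Om × Om)) (y : Om) (hA : ∀ n : ℕ, ((n : Om), y) ∈ A) :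
    (∞, y) ∈ derivedSet A := by
  rw [mem_derivedSet, accPt_iff_nhds]
  intro U hU
  have ht : Tendsto (fun n : ℕ => ((n : Om), y)) atTop (𝓝 (∞, y)) :=
    tendsto_coe.prodMk_nhds tendsto_const_nhds
  obtain ⟨n, hn⟩ := (ht.eventually hU).exists
  exact ⟨_, ⟨hn, hA n⟩, fun h => OnePoint.coe_ne_infty n (congrArg Prod.fst h)⟩

lemma acc_snd (A : Set (Om × Om)) (x : Om) (hA : ∀ n : ℕ, (x, (n : Om)) ∈ A) :
    (x, ∞) ∈ derivedSet A := by
  rw [mem_derivedSet, accPt_iff_nhds]
  intro U hU
  have ht : Tendsto (fun n : ℕ => (x, (n : Om))) atTop (𝓝 (x, ∞)) :=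
    tendsto_const_nhds.prodMk_nhds tendsto_coe
  obtain ⟨n, hn⟩ := (ht.eventually hU).exists
  exact ⟨_, ⟨hn, hA n⟩, fun h => OnePoint.coe_ne_infty n (congrArg Prod.snd h)⟩

lemma derived_univ_prod : derivedSet (Set.univ : Set (Om × Om)) = bdry := by
  ext p
  obtain ⟨x, y⟩ := p
  constructor
  · intro h
    by_contra hx
    simp only [bdry, Set.mem_ofPred_eq, not_or] at hx
    obtain ⟨n, rfl⟩ := OnePoint.ne_infty_iff_exists.1 hx.1
    obtain ⟨m, rfl⟩ := OnePoint.ne_infty_iff_exists.1 hx.2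
    rw [mem_derivedSet, accPt_iff_nhds] at h
    obtain ⟨z, hz, hne⟩ := h _ ((isOpen_point n m).mem_nhds rfl)
    exact hne hz.1
  · rintro (h | h)
    · simp only at h; subst h; exact acc_fst _ _ fun _ => trivial
    · simp only at h; subst h; exact acc_snd _ _ fun _ => trivial

lemma derived_bdry : derivedSet bdry = {(∞, ∞)} := by
  ext p
  obtain ⟨x, y⟩ := p
  constructor
  · intro h
    have hcl : (x, y) ∈ bdry := by
      rw [← derived_univ_prod]
      exact derivedSet_mono _ _ (Set.subset_univ _) h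
    rw [mem_derivedSet, accPt_iff_nhds] at h
    by_contra hne
    rcases hcl with hx | hy
    · simp only at hx; subst hx
      have hy : y ≠ ∞ := fun hy => hne (by rw [hy]; rfl)
      obtain ⟨m, rfl⟩ := OnePoint.ne_infty_iff_exists.1 hy
      obtain ⟨⟨a, b⟩, ⟨hab, hab'⟩, hne'⟩ := h (Set.univ ×ˢ {(m : Om)})
        ((isOpen_univ.prod (isOpen_singleton_coe m)).mem_nhds ⟨trivial, rfl⟩)
      have hb : b = m := hab.2
      subst hb
      rcases hab' with ha | hb
      · simp only at ha; exact hne' (by rw [ha])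
      · exact OnePoint.coe_ne_infty m hb
    · simp only at hy; subst hy
      have hx : x ≠ ∞ := fun hx => hne (by rw [hx]; rfl)
      obtain ⟨m, rfl⟩ := OnePoint.ne_infty_iff_exists.1 hx
      obtain ⟨⟨a, b⟩, ⟨hab, hab'⟩, hne'⟩ := h ({(m : Om)} ×ˢ Set.univ)
        (((isOpen_singleton_coe m).prod isOpen_univ).mem_nhds ⟨rfl, trivial⟩)
      have ha : a = m := hab.1
      subst ha
      rcases hab' with ha | hb
      · exact OnePoint.coe_ne_infty m ha
      · simp only at hb; exact hne' (by rw [hb])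
  · rintro h
    rw [Set.mem_singleton_iff] at h
    rw [h]
    exact acc_fst _ _ fun _ => Or.inr rfl

theorem height_prod : height (Om × Om) = 3 := by
  have h1 : cbDeriv (Om × Om) ((1 : ℕ) : Ordinal) = bdry := by
    have := cbDeriv_add_one (Om × Om) 0
    rw [zero_add, cbDeriv_zero, derived_univ_prod] at this
    simpa using this
  have h2 : cbDeriv (Om × Om) ((2 : ℕ) : Ordinal) = {(∞, ∞)} := by
    have := cbDeriv_add_one (Om × Om) ((1 : ℕ) : Ordinal)
    rw [h1, derived_bdry] at this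
    rw [← this]
    norm_num
  have h3 : cbDeriv (Om × Om) ((3 : ℕ) : Ordinal) = ∅ := by
    have := cbDeriv_add_one (Om × Om) ((2 : ℕ) : Ordinal)
    rw [h2, derived_singleton'] at this
    rw [← this]
    norm_num
  refine height_eq_of (Om × Om) 3 h3 fun m hm => ?_
  interval_cases m
  · rw [Nat.cast_zero, cbDeriv_zero]; exact Set.univ_nonempty.ne_empty
  · rw [h1]; exact Set.Nonempty.ne_empty ⟨(∞, ∞), Or.inl rfl⟩
  · rw [h2]; exact (Set.singleton_nonempty _).ne_empty

end Pool.Agent.CKHeight
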