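import Mathlib
import Pool.Agent.CKHeight.Defs
import Pool.Agent.CKHeight.Heights

/-!
# A positive linear isomorphism of `C(K)` onto `C(K × K)`, `K = [0, ω]`

For `K = ℕ ∪ {∞}` we split the isolated points of `K` into points `a_n`, `b_m`, `c_{n,m}` and put
`T f (x, y) = f (γ (x, y)) / 2 + f (α x) / 4 + f (β y) / 4`, where `α n = a_n`, `β m = b_m`,
`γ (n, m) = c_{n,m}` and all other points are sent to `∞`.  `T` is a positive linear operator with
`‖T‖ ≤ 1`, it is bijective, and `‖T⁻¹‖ ≤ 9`.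
-/

set_option autoImplicit false

open OnePoint Filter Topology Set
open scoped NNReal

namespace Pool.Agent.CKHeight

lemma continuous_of_clopen {L : Type} [TopologicalSpace L] (g : L → Om)
    (h : ∀ n : ℕ, IsClopen (g ⁻¹' {(n : Om)})) : Continuous g := by
  refine continuous_def.2 fun U hU => ?_
  by_cases hinf : (∞ : Om) ∈ U
  · obtain ⟨-, hc⟩ := (OnePoint.isOpen_iff_of_mem hinf).1 hU
    have hfin : ((((↑) : ℕ → Om) ⁻¹' U)ᶜ).Finite := hc.finite_of_discrete
    have hcl : IsClosed (⋃ n ∈ ((((↑) : ℕ → Om) ⁻¹' U)ᶜ), g ⁻¹' {(n : Om)}) :=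
      hfin.isClosed_biUnion fun n _ => (h n).1
    convert hcl.isOpen_compl using 1
    ext x
    simp only [Set.mem_preimage, Set.mem_compl_iff, Set.mem_iUnion, Set.mem_singleton_iff,
      not_exists]
    constructor
    · intro hx n hn hgx
      exact hn (by rw [← hgx]; exact hx)
    · intro hx
      by_contra hxU
      have hne : g x ≠ ∞ := fun h => hxU (by rw [h]; exact hinf)
      obtain ⟨n, hn⟩ := OnePoint.ne_infty_iff_exists.1 hne
      exact hx n (by rw [hn]; exact hxU) hn.symm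
  · have hop : IsOpen (⋃ n ∈ (((↑) : ℕ → Om) ⁻¹' U), g ⁻¹' {(n : Om)}) :=
      isOpen_biUnion fun n _ => (h n).2
    convert hop using 1
    ext x
    simp only [Set.mem_preimage, Set.mem_iUnion, Set.mem_singleton_iff, exists_prop]
    constructor
    · intro hx
      have hne : g x ≠ ∞ := fun h => hinf (by rw [← h]; exact hx)
      obtain ⟨n, hn⟩ := OnePoint.ne_infty_iff_exists.1 hne
      exact ⟨n, by rw [hn]; exact hx, hn.symm⟩
    · rintro ⟨n, hn, hgx⟩
      rw [hgx]; exact hn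

lemma isClopen_singleton_coe (n : ℕ) : IsClopen ({(n : Om)} : Set Om) :=
  ⟨isClosed_singleton, isOpen_singleton_coe n⟩

/-- A bijection of the disjoint union `ℕ ⊔ ℕ ⊔ ℕ × ℕ` with `ℕ`. -/
def e : (ℕ ⊕ ℕ) ⊕ (ℕ × ℕ) ≃ ℕ := Denumerable.eqv _

/-- `n ↦ e (inl (inl n))`, `∞ ↦ ∞`. -/
def al (x : Om) : Om := x.elim ∞ (fun n => ((e (Sum.inl (Sum.inl n)) : ℕ) : Om))
/-- `n ↦ e (inl (inr n))`, `∞ ↦ ∞`. -/
def be (x : Om) : Om := x.elim ∞ (fun n => ((e (Sum.inl (Sum.inr n)) : ℕ) : Om))
/-- `(n, m) ↦ e (inr (n, m))`, everything else goes to `∞`. -/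
def ga (p : Om × Om) : Om :=
  p.1.elim ∞ (fun n => p.2.elim ∞ (fun m => ((e (Sum.inr (n, m)) : ℕ) : Om)))

lemma continuous_al : Continuous al := by
  refine continuous_of_clopen _ fun k => ?_
  have : al ⁻¹' {(k : Om)} = ⋃ n ∈ {n : ℕ | e (Sum.inl (Sum.inl n)) = k}, {(n : Om)} := by
    ext x
    induction x using OnePoint.rec with
    | infty => simp [al]
    | coe n => simp [al]
  rw [this]
  refine Set.Finite.isClopen_biUnion ?_ fun n _ => isClopen_singleton_coe n
  refine Set.Subsingleton.finite ?_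
  intro a ha b hb
  have := e.injective (ha.trans hb.symm)
  simpa using this

lemma continuous_be : Continuous be := by
  refine continuous_of_clopen _ fun k => ?_
  have : be ⁻¹' {(k : Om)} = ⋃ n ∈ {n : ℕ | e (Sum.inl (Sum.inr n)) = k}, {(n : Om)} := by
    ext x
    induction x using OnePoint.rec with
    | infty => simp [be]
    | coe n => simp [be]
  rw [this]
  refine Set.Finite.isClopen_biUnion ?_ fun n _ => isClopen_singleton_coe n
  refine Set.Subsingleton.finite ?_
  intro a ha b hb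
  have := e.injective (ha.trans hb.symm)
  simpa using this

lemma continuous_ga : Continuous ga := by
  refine continuous_of_clopen _ fun k => ?_
  have : ga ⁻¹' {(k : Om)} =
      ⋃ p ∈ {p : ℕ × ℕ | e (Sum.inr p) = k}, {((p.1 : Om), (p.2 : Om))} := by
    ext x
    obtain ⟨x, y⟩ := x
    induction x using OnePoint.rec with
    | infty => simp [ga]
    | coe n =>
      induction y using OnePoint.rec with
      | infty => simp [ga]
      | coe m => simp [ga]
  rw [this]
  refine Set.Finite.isClopen_biUnion ?_ fun p _ => ⟨isClosed_singleton, isOpen_point p.1 p.2⟩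
  refine Set.Subsingleton.finite ?_
  intro a ha b hb
  have := e.injective (ha.trans hb.symm)
  simpa using this

/-- The positive operator `T`. -/
noncomputable def T (f : C(Om, ℝ)) : C(Om × Om, ℝ) where
  toFun p := (1 / 2) * f (ga p) + (1 / 4) * f (al p.1) + (1 / 4) * f (be p.2)
  continuous_toFun := by
    have h1 := f.continuous.comp continuous_ga
    have h2 := f.continuous.comp (continuous_al.comp (continuous_fst (X := Om) (Y := Om)))
    have h3 := f.continuous.comp (continuous_be.comp (continuous_snd (X := Om) (Y := Om)))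
    exact ((h1.const_mul _).add (h2.const_mul _)).add (h3.const_mul _)

lemma T_apply (f : C(Om, ℝ)) (p : Om × Om) :
    T f p = (1 / 2) * f (ga p) + (1 / 4) * f (al p.1) + (1 / 4) * f (be p.2) := rfl

/-- values of the inverse operator on `ℕ` -/
noncomputable def sv (h : C(Om × Om, ℝ)) : (ℕ ⊕ ℕ) ⊕ (ℕ × ℕ) → ℝ
  | Sum.inl (Sum.inl n) => 4 * h (n, ∞) - 3 * h (∞, ∞)
  | Sum.inl (Sum.inr m) => 4 * h (∞, m) - 3 * h (∞, ∞)
  | Sum.inr (n, m) => 2 * h (n, m) - 2 * h (n, ∞) - 2 * h (∞, m) + 3 * h (∞, ∞)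

/-- the inverse operator, as a function -/
noncomputable def sf (h : C(Om × Om, ℝ)) (x : Om) : ℝ :=
  x.elim (h (∞, ∞)) (fun k => sv h (e.symm k))

lemma finite_of_cont (g : C(Om, ℝ)) (c : ℝ) (hg : g ∞ = c) (ε : ℝ) (hε : 0 < ε) :
    {n : ℕ | ε ≤ |g n - c|}.Finite := by
  have h1 : Tendsto (fun n : ℕ => |g n - c|) atTop (𝓝 0) := by
    have := ((g.continuous.tendsto ∞).comp tendsto_coe).sub_const c
    rw [hg, sub_self] at this
    simpa using this.abs
  have h2 := h1.eventually (gt_mem_nhds hε)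
  rw [← Nat.cofinite_eq_atTop] at h2
  have h3 := eventually_cofinite.1 h2
  simpa using h3

lemma finite_of_bdry (g : C(Om × Om, ℝ)) (hg : ∀ p ∈ bdry, g p = 0) (ε : ℝ) (hε : 0 < ε) :
    {p : ℕ × ℕ | ε ≤ |g ((p.1 : Om), (p.2 : Om))|}.Finite := by
  have hemb : IsOpenEmbedding (Prod.map ((↑) : ℕ → Om) ((↑) : ℕ → Om)) :=
    OnePoint.isOpenEmbedding_coe.prodMap OnePoint.isOpenEmbedding_coe
  have hcl : IsClosed {p : Om × Om | ε ≤ |g p|} :=
    isClosed_le continuous_const g.continuous.abs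
  have hsub : {p : Om × Om | ε ≤ |g p|} ⊆ Set.range (Prod.map ((↑) : ℕ → Om) ((↑) : ℕ → Om)) := by
    rintro ⟨x, y⟩ hp
    have hnb : (x, y) ∉ bdry := by
      intro hb
      have : ε ≤ |g (x, y)| := hp
      rw [hg _ hb, abs_zero] at this
      linarith
    simp only [bdry, Set.mem_ofPred_eq, not_or] at hnb
    obtain ⟨n, rfl⟩ := OnePoint.ne_infty_iff_exists.1 hnb.1
    obtain ⟨m, rfl⟩ := OnePoint.ne_infty_iff_exists.1 hnb.2
    exact ⟨(n, m), rfl⟩
  have hc := (hemb.isInducing.isCompact_preimage_iff hsub).2 hcl.isCompact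
  exact hc.finite_of_discrete

lemma continuous_sf (h : C(Om × Om, ℝ)) : Continuous (sf h) := by
  rw [OnePoint.continuous_iff_from_discrete, Metric.tendsto_nhds]
  intro ε hε
  rw [eventually_cofinite]
  -- the three pieces
  let g1 : C(Om, ℝ) := ⟨fun x => h (x, ∞), by fun_prop⟩
  let g2 : C(Om, ℝ) := ⟨fun x => h (∞, x), by fun_prop⟩
  let g3 : C(Om × Om, ℝ) :=
    ⟨fun p => h p - h (p.1, ∞) - h (∞, p.2) + h (∞, ∞), by fun_prop⟩
  have f1 := finite_of_cont g1 (h (∞, ∞)) rfl (ε / 4) (by positivity)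
  have f2 := finite_of_cont g2 (h (∞, ∞)) rfl (ε / 4) (by positivity)
  have f3 := finite_of_bdry g3 (by
    rintro ⟨x, y⟩ (hx | hy)
    · simp only at hx; subst hx
      change h (∞, y) - h (∞, ∞) - h (∞, y) + h (∞, ∞) = 0; ring
    · simp only at hy; subst hy
      change h (x, ∞) - h (x, ∞) - h (∞, ∞) + h (∞, ∞) = 0; ring) (ε / 2) (by positivity)
  have f4 := ((f1.image (fun n => e (Sum.inl (Sum.inl n)))).union
    (f2.image (fun n => e (Sum.inl (Sum.inr n))))).union (f3.image (fun p => e (Sum.inr p)))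
  refine f4.subset fun k hk => ?_
  simp only [Set.mem_ofPred_eq, not_lt] at hk
  obtain ⟨d, rfl⟩ := e.surjective k
  have e0 : sf h ((e d : ℕ) : Om) = sv h d := by simp [sf]
  have e1 : sf h ∞ = h (∞, ∞) := by simp [sf]
  rw [e0, e1, Real.dist_eq] at hk
  rcases d with (n | m) | ⟨n, m⟩
  · left; left
    refine ⟨n, ?_, rfl⟩
    change ε / 4 ≤ |h (n, ∞) - h (∞, ∞)|
    have : sv h (Sum.inl (Sum.inl n)) - h (∞, ∞) = 4 * (h (n, ∞) - h (∞, ∞)) := by
      simp only [sv]; ring
    rw [this, abs_mul, abs_of_pos (by norm_num : (0 : ℝ) < 4)] at hk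
    linarith
  · left; right
    refine ⟨m, ?_, rfl⟩
    change ε / 4 ≤ |h (∞, m) - h (∞, ∞)|
    have : sv h (Sum.inl (Sum.inr m)) - h (∞, ∞) = 4 * (h (∞, m) - h (∞, ∞)) := by
      simp only [sv]; ring
    rw [this, abs_mul, abs_of_pos (by norm_num : (0 : ℝ) < 4)] at hk
    linarith
  · right
    refine ⟨(n, m), ?_, rfl⟩
    change ε / 2 ≤ |h (n, m) - h (n, ∞) - h (∞, m) + h (∞, ∞)|
    have : sv h (Sum.inr (n, m)) - h (∞, ∞) =
        2 * (h (n, m) - h (n, ∞) - h (∞, m) + h (∞, ∞)) := by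
      simp only [sv]; ring
    rw [this, abs_mul, abs_of_pos (by norm_num : (0 : ℝ) < 2)] at hk
    linarith

/-- The inverse operator `S`. -/
noncomputable def S (h : C(Om × Om, ℝ)) : C(Om, ℝ) := ⟨sf h, continuous_sf h⟩

lemma S_infty (h : C(Om × Om, ℝ)) : S h ∞ = h (∞, ∞) := rfl

lemma S_coe (h : C(Om × Om, ℝ)) (d : (ℕ ⊕ ℕ) ⊕ (ℕ × ℕ)) : S h ((e d : ℕ) : Om) = sv h d := by
  change sf h ((e d : ℕ) : Om) = sv h d
  simp [sf]

lemma S_T (f : C(Om, ℝ)) : S (T f) = f := by
  ext x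
  induction x using OnePoint.rec with
  | infty =>
    rw [S_infty, T_apply]
    simp only [ga, al, be, OnePoint.elim_infty]; ring
  | coe k =>
    obtain ⟨d, rfl⟩ := e.surjective k
    rw [S_coe]
    rcases d with (n | m) | ⟨n, m⟩ <;>
    · simp only [sv, T_apply, ga, al, be, OnePoint.elim_infty, OnePoint.elim_some]; ring

lemma T_S (h : C(Om × Om, ℝ)) : T (S h) = h := by
  ext ⟨x, y⟩
  rw [T_apply]
  induction x using OnePoint.rec with
  | infty =>
    induction y using OnePoint.rec with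
    | infty =>
      simp only [ga, al, be, OnePoint.elim_infty, S_infty]; ring
    | coe m =>
      simp only [ga, al, be, OnePoint.elim_infty, OnePoint.elim_some, S_infty, S_coe, sv]; ring
  | coe n =>
    induction y using OnePoint.rec with
    | infty =>
      simp only [ga, al, be, OnePoint.elim_infty, OnePoint.elim_some, S_infty, S_coe, sv]; ring
    | coe m =>
      simp only [ga, al, be, OnePoint.elim_some, S_coe, sv]; ring

/-- The positive linear isomorphism of `C([0, ω])` onto `C([0, ω] × [0, ω])`. -/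
noncomputable def Tequiv : C(Om, ℝ) ≃ₗ[ℝ] C(Om × Om, ℝ) where
  toFun := T
  invFun := S
  left_inv := S_T
  right_inv := T_S
  map_add' f g := by
    ext p
    change T (f + g) p = T f p + T g p
    simp only [T_apply, ContinuousMap.add_apply]; ring
  map_smul' c f := by
    ext p
    change T (c • f) p = c * T f p
    simp only [T_apply, ContinuousMap.smul_apply, smul_eq_mul]; ring

lemma T_mono (f g : C(Om, ℝ)) (h : f ≤ g) : T f ≤ T g := by
  intro p
  change T f p ≤ T g p
  rw [T_apply, T_apply]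
  have h1 : f (ga p) ≤ g (ga p) := h (ga p)
  have h2 : f (al p.1) ≤ g (al p.1) := h (al p.1)
  have h3 : f (be p.2) ≤ g (be p.2) := h (be p.2)
  linarith

lemma norm_T_le (f : C(Om, ℝ)) : ‖T f‖ ≤ ‖f‖ := by
  rw [ContinuousMap.norm_le _ (norm_nonneg _)]
  intro p
  rw [T_apply, Real.norm_eq_abs, abs_le]
  have h1 := abs_le.1 (Real.norm_eq_abs _ ▸ f.norm_coe_le_norm (ga p))
  have h2 := abs_le.1 (Real.norm_eq_abs _ ▸ f.norm_coe_le_norm (al p.1))
  have h3 := abs_le.1 (Real.norm_eq_abs _ ▸ f.norm_coe_le_norm (be p.2))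
  constructor <;> linarith [h1.1, h1.2, h2.1, h2.2, h3.1, h3.2]

lemma norm_S_le (h : C(Om × Om, ℝ)) : ‖S h‖ ≤ 9 * ‖h‖ := by
  rw [ContinuousMap.norm_le _ (by positivity)]
  have hb : ∀ p, -‖h‖ ≤ h p ∧ h p ≤ ‖h‖ := fun p =>
    abs_le.1 (Real.norm_eq_abs _ ▸ h.norm_coe_le_norm p)
  intro x
  induction x using OnePoint.rec with
  | infty =>
    rw [S_infty, Real.norm_eq_abs, abs_le]
    have := hb (∞, ∞)
    have h0 := norm_nonneg h
    constructor <;> linarith [this.1, this.2]
  | coe k =>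
    obtain ⟨d, rfl⟩ := e.surjective k
    rw [S_coe, Real.norm_eq_abs, abs_le]
    have h0 := norm_nonneg h
    have h1 := hb (∞, ∞)
    rcases d with (n | m) | ⟨n, m⟩
    · have h2 := hb (n, ∞)
      simp only [sv]
      constructor <;> linarith [h1.1, h1.2, h2.1, h2.2]
    · have h2 := hb (∞, m)
      simp only [sv]
      constructor <;> linarith [h1.1, h1.2, h2.1, h2.2]
    · have h2 := hb (n, ∞)
      have h3 := hb (∞, m)
      have h4 := hb (n, m)
      simp only [sv]
      constructor <;> linarith [h1.1, h1.2, h2.1, h2.2, h3.1, h3.2, h4.1, h4.2]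

theorem main : ∃ F : C(Om, ℝ) ≃ₗ[ℝ] C(Om × Om, ℝ), (∀ f g, f ≤ g → F f ≤ F g) ∧
    (∃ c : ℝ≥0, LipschitzWith c F) ∧ (∃ c : ℝ≥0, LipschitzWith c F.symm) := by
  refine ⟨Tequiv, T_mono, ⟨1, ?_⟩, ⟨9, ?_⟩⟩
  · refine LipschitzWith.of_dist_le_mul fun f g => ?_
    rw [dist_eq_norm, dist_eq_norm, ← map_sub, NNReal.coe_one, one_mul]
    exact norm_T_le _
  · refine LipschitzWith.of_dist_le_mul fun f g => ?_
    rw [dist_eq_norm, dist_eq_norm, ← map_sub]
    exact norm_S_le _

end Pool.Agent.CKHeight
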